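import Pool.Agent.J4H68.CG.Stm
import Pool.Agent.J4H21.SP.Comp

/-! Project SP (b), piece DN: 3-colourability is a projection of satisfiability. -/

set_option autoImplicit false

namespace Pool.Agent.J4H4.CG

open Finset Pool.Agent.J4H64.SS Pool.Agent.J4H95.SP Pool.Agent.J4H68.CG

/-- the variable `(v, i)` -/
def vr {N : ℕ} (v : Fin N) (i : Fin 3) : Fin (N * 3) := finProdFinEquiv (v, i)

theorem vr_inj {N : ℕ} {v w : Fin N} {i j : Fin 3} (h : vr v i = vr w j) : v = w ∧ i = j := by
  have := finProdFinEquiv.injective h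
  exact ⟨congrArg Prod.fst this, congrArg Prod.snd this⟩

/-- the vertex `v` has a colour -/
def cA {N : ℕ} (v : Fin N) : Cl (N * 3) := ⟨{(vr v 0, true), (vr v 1, true), (vr v 2, true)}, card_le_three⟩

/-- the ends of `p` have not both the colour `i` -/
def cB {N : ℕ} (p : Pr N) (i : Fin 3) : Cl (N * 3) :=
  ⟨{(vr p.1.1 i, false), (vr p.1.2 i, false)}, card_le_two.trans (by norm_num)⟩

theorem cB_inj {N : ℕ} {p q : Pr N} {i j : Fin 3} (h : cB p i = cB q j) : p = q := by
  have h1 : ({(vr p.1.1 i, false), (vr p.1.2 i, false)} : Finset (Fin (N * 3) × Bool)) =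
      {(vr q.1.1 j, false), (vr q.1.2 j, false)} := congrArg Subtype.val h
  have a1 : (vr p.1.1 i, false) ∈ ({(vr q.1.1 j, false), (vr q.1.2 j, false)} : Finset (Fin (N * 3) × Bool)) := by
    rw [← h1]; simp
  have a2 : (vr p.1.2 i, false) ∈ ({(vr q.1.1 j, false), (vr q.1.2 j, false)} : Finset (Fin (N * 3) × Bool)) := by
    rw [← h1]; simp
  simp only [mem_insert, mem_singleton, Prod.mk.injEq, and_true] at a1 a2
  have hp := p.2
  have hq := q.2
  apply Subtype.ext
  rcases a1 with a1 | a1 <;> rcases a2 with a2 | a2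
  · exact absurd ((vr_inj a1).1.trans (vr_inj a2).1.symm) hp.ne
  · exact Prod.ext (vr_inj a1).1 (vr_inj a2).1
  · rw [(vr_inj a1).1, (vr_inj a2).1] at hp
    exact absurd hp hq.not_gt
  · exact absurd ((vr_inj a1).1.trans (vr_inj a2).1.symm) hp.ne

/-- the clause is present -/
def fc {N : ℕ} (c : Cl (N * 3)) (x : Pr N → Bool) : Prop :=
  (∃ v, c = cA v) ∨ ∃ p i, c = cB p i ∧ x p = true

theorem ac_fc {N : ℕ} (c : Cl (N * 3)) : AC 2 2 (fun x : Pr N → Bool => fc c x) := by
  have hF : AC (I := Pr N) 2 1 (fun _ => False) := by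
    have := AC.ex (I := Pr N) (w := 2) (d := 0) (k := 0) (fun j => j.elim0) (by norm_num) (fun j => j.elim0)
    convert this using 2
    simp
  have hT : AC (I := Pr N) 2 2 (fun _ => True) := by
    have := AC.neg hF
    simpa using this
  have hF2 : AC (I := Pr N) 2 2 (fun _ => False) := by
    have := AC.ex (I := Pr N) (w := 2) (d := 1) (k := 0) (fun j => j.elim0) (by norm_num) (fun j => j.elim0)
    convert this using 2
    simp
  by_cases hA : ∃ v : Fin N, c = cA v
  · have : (fun x : Pr N → Bool => fc c x) = fun _ => True := by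
      funext x
      exact propext ⟨fun _ => trivial, fun _ => Or.inl hA⟩
    rw [this]
    exact hT
  · by_cases hB : ∃ (p : Pr N) (i : Fin 3), c = cB p i
    · obtain ⟨p, i, hp⟩ := hB
      have : (fun x : Pr N → Bool => fc c x) = fun x => x p = true := by
        funext x
        refine propext ⟨?_, fun h => Or.inr ⟨p, i, hp, h⟩⟩
        rintro (h | ⟨q, j, hq, h⟩)
        · exact absurd h hA
        · rw [hp] at hq
          rw [cB_inj hq]
          exact h
      rw [this]
      exact AC.inp 2 p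
    · have : (fun x : Pr N → Bool => fc c x) = fun _ => False := by
        funext x
        refine propext ⟨?_, fun h => h.elim⟩
        rintro (h | ⟨q, j, hq, h⟩)
        · exact hA h
        · exact hB ⟨q, j, hq⟩
      rw [this]
      exact hF2

open Classical in
theorem sat_iff {N : ℕ} (x : Pr N → Bool) : Sat (fun c : Cl (N * 3) => decide (fc c x)) ↔ Col x := by
  constructor
  · rintro ⟨a, ha⟩
    have hA : ∀ v : Fin N, ∃ i : Fin 3, a (vr v i) = true := by
      intro v
      obtain ⟨l, hl, hl2⟩ := ha (cA v) (decide_eq_true (Or.inl ⟨v, rfl⟩))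
      simp only [cA, mem_insert, mem_singleton] at hl
      rcases hl with rfl | rfl | rfl
      · exact ⟨0, hl2⟩
      · exact ⟨1, hl2⟩
      · exact ⟨2, hl2⟩
    choose χ hχ using hA
    refine ⟨χ, fun p hp he => ?_⟩
    obtain ⟨l, hl, hl2⟩ := ha (cB p (χ p.1.1)) (decide_eq_true (Or.inr ⟨p, _, rfl, hp⟩))
    simp only [cB, mem_insert, mem_singleton] at hl
    rcases hl with rfl | rfl
    · have h1 := hχ p.1.1
      simp only at hl2
      rw [h1] at hl2
      exact absurd hl2 (by decide)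
    · have h1 := hχ p.1.2
      simp only at hl2
      rw [he, h1] at hl2
      exact absurd hl2 (by decide)
  · rintro ⟨χ, hχ⟩
    refine ⟨fun w => decide (χ (finProdFinEquiv.symm w).1 = (finProdFinEquiv.symm w).2), fun c hc => ?_⟩
    have hval : ∀ (v : Fin N) (i : Fin 3), (decide (χ (finProdFinEquiv.symm (vr v i)).1 = (finProdFinEquiv.symm (vr v i)).2)) =
        decide (χ v = i) := by
      intro v i
      rw [vr, Equiv.symm_apply_apply]
    rcases of_decide_eq_true hc with ⟨v, rfl⟩ | ⟨p, i, rfl, hp⟩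
    · refine ⟨(vr v (χ v), true), ?_, ?_⟩
      · simp only [cA, mem_insert, mem_singleton, Prod.mk.injEq, and_true]
        have h3 : χ v = 0 ∨ χ v = 1 ∨ χ v = 2 := by
          generalize χ v = z
          fin_cases z <;> simp
        rcases h3 with h3 | h3 | h3 <;> simp [h3]
      · show decide _ = true
        rw [hval]
        simp
    · have h := hχ p hp
      by_cases h1 : χ p.1.1 = i
      · refine ⟨(vr p.1.2 i, false), ?_, ?_⟩
        · simp [cB]
        · show decide _ = false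
          rw [hval]
          exact decide_eq_false (fun h2 => h (h1.trans h2.symm))
      · refine ⟨(vr p.1.1 i, false), ?_, ?_⟩
        · simp [cB]
        · show decide _ = false
          rw [hval]
          exact decide_eq_false h1

theorem card_Pr (N : ℕ) : Fintype.card (Pr N) ≤ N ^ 2 := by
  refine (Fintype.card_subtype_le _).trans ?_
  rw [Fintype.card_prod, Fintype.card_fin]
  exact le_of_eq (by ring)

/-- elementary growth -/
theorem grow (δ : ℝ) (hδ : 0 < δ) : ∃ N₁ : ℕ, 2 ≤ N₁ ∧ ∀ N : ℕ, N₁ ≤ N →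
    (N : ℝ) ^ 2 + 16 * (2 : ℝ) ^ (δ / 2 * N) ≤ (2 : ℝ) ^ (δ * N) := by
  have hq : (1 : ℝ) < (2 : ℝ) ^ (δ / 2) := Real.one_lt_rpow (by norm_num) (by positivity)
  have h1 : Filter.Tendsto (fun N : ℕ => (N : ℝ) ^ 2 / ((2 : ℝ) ^ (δ / 2)) ^ N) Filter.atTop (nhds 0) :=
    tendsto_pow_const_div_const_pow_of_one_lt 2 hq
  have h2 : Filter.Tendsto (fun N : ℕ => ((2 : ℝ) ^ (δ / 2)) ^ N) Filter.atTop Filter.atTop :=
    tendsto_pow_atTop_atTop_of_one_lt hq
  have e1 := h1.eventually (gt_mem_nhds (show (0 : ℝ) < 1 by norm_num))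
  have e2 := h2.eventually (Filter.eventually_ge_atTop (17 : ℝ))
  obtain ⟨N₁, hN₁⟩ := Filter.eventually_atTop.1 (e1.and e2)
  refine ⟨max N₁ 2, le_max_right _ _, fun N hN => ?_⟩
  obtain ⟨a, b⟩ := hN₁ N ((le_max_left _ _).trans hN)
  have hp : (0 : ℝ) < ((2 : ℝ) ^ (δ / 2)) ^ N := by positivity
  rw [div_lt_one hp] at a
  have e3 : (2 : ℝ) ^ (δ / 2 * N) = ((2 : ℝ) ^ (δ / 2)) ^ N := by
    rw [Real.rpow_mul (by norm_num), Real.rpow_natCast]
  have e4 : (2 : ℝ) ^ (δ * N) = ((2 : ℝ) ^ (δ / 2)) ^ N * ((2 : ℝ) ^ (δ / 2)) ^ N := by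
    rw [← e3, ← Real.rpow_add (by norm_num)]
    congr 1
    ring
  rw [e3, e4]
  nlinarith

open Classical in
theorem t_DN : S_DN := by
  rintro ⟨δ, hδ, H⟩
  obtain ⟨N₁, hN₁, hg⟩ := grow δ hδ
  refine ⟨δ / 6, by positivity, fun d N₀ => ?_⟩
  obtain ⟨N, hN, hN1, hno⟩ := H (d + 3) (max N₀ N₁)
  refine ⟨N * 3, ?_, by omega, ?_⟩
  · have := (le_max_left N₀ N₁).trans hN
    omega
  rintro ⟨C, hW, hD, hs, hA⟩
  apply hno
  have hN2 : 2 ≤ N := hN₁.trans ((le_max_right _ _).trans hN)
  have i₀ : Pr N := ⟨(⟨0, by omega⟩, ⟨1, by omega⟩), by simp [Fin.lt_def]⟩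
  choose T t1 t2 t3 t4 using fun c : Cl (N * 3) =>
    Pool.Agent.J4H21.SP.tree i₀ 2 le_rfl 2 (fun x : Pr N → Bool => fc c x) (ac_fc c)
  obtain ⟨E, e1, e2, e3, e4⟩ := Pool.Agent.J4H21.SP.comp C T hW t1 d 3 hD t2
  refine ⟨E, e1, e2, ?_, fun x => ?_⟩
  · have hs1 : ∑ c, (T c).m ≤ 16 * Fintype.card (Cl (N * 3)) := by
      calc ∑ c, (T c).m ≤ ∑ _c : Cl (N * 3), 16 := Finset.sum_le_sum fun c _ => by
            have := t3 c
            norm_num at this
            exact this
        _ = 16 * Fintype.card (Cl (N * 3)) := by simp [mul_comm]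
    have hE : (E.m : ℝ) ≤ 16 * ((Fintype.card (Cl (N * 3)) : ℝ) + (C.m : ℝ)) := by
      have : E.m ≤ 16 * (Fintype.card (Cl (N * 3)) + C.m) := by
        rw [e3]
        omega
      exact_mod_cast this
    have hex : δ / 6 * ((N * 3 : ℕ) : ℝ) = δ / 2 * N := by
      push_cast
      ring
    rw [hex] at hs
    have hP : (Fintype.card (Pr N) : ℝ) ≤ (N : ℝ) ^ 2 := by exact_mod_cast card_Pr N
    have := hg N ((le_max_right _ _).trans hN)
    linarith
  · rw [e4 x, hA]
    have : (fun c => decide ((T c).Acc x)) = fun c => decide (fc c x) := by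
      funext c
      exact decide_eq_decide.2 (t4 c x)
    rw [this]
    exact sat_iff x

end Pool.Agent.J4H4.CG
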