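import Pool.Agent.J4H68.CG.Stm

/-! Project SP (b), piece ENU: enumerations of the literals of a clause. -/

set_option autoImplicit false

namespace Pool.Agent.J4H4.CG

open Finset Pool.Agent.J4H64.SS Pool.Agent.J4H95.SP Pool.Agent.J4H68.CG

theorem enum {α : Type} (s : Finset α) (h3 : s.card ≤ 3) (h : s.Nonempty) :
    ∃ f : Fin 3 → α, ∀ l, l ∈ s ↔ ∃ j, f j = l := by
  classical
  haveI : Nonempty s := h.to_subtype
  obtain ⟨e⟩ : Nonempty (s ↪ Fin 3) := by
    rw [Function.Embedding.nonempty_iff_card_le, Fintype.card_coe, Fintype.card_fin]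
    exact h3
  refine ⟨fun j => (Function.invFun e j : s).1, fun l => ⟨fun hl => ?_, ?_⟩⟩
  · refine ⟨e ⟨l, hl⟩, ?_⟩
    show (Function.invFun e (e ⟨l, hl⟩) : s).1 = l
    rw [Function.leftInverse_invFun e.injective]
  · rintro ⟨j, rfl⟩
    exact (Function.invFun e j : s).2

theorem t_ENU : S_ENU := by
  intro n hn
  classical
  have l₀ : Fin n × Bool := (⟨0, hn⟩, true)
  refine ⟨fun c => if h : c.1.Nonempty then (enum c.1 c.2 h).choose else fun _ => l₀, ?_⟩
  intro c hc l
  simp only [hc, dif_pos]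
  exact (enum c.1 c.2 hc).choose_spec l

end Pool.Agent.J4H4.CG
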